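import Pool.Agent.R497.NC.Defs

set_option autoImplicit false

namespace Pool.Agent.R497.NC

open MeasureTheory Filter Finset
open scoped InnerProductSpace

namespace MetAux

variable {α : Type} [MeasurableSpace α] {μ : Measure α} [IsProbabilityMeasure μ] {T : Equiv.Perm α}

lemma symm_mp (hT : Sys μ T) : MeasurePreserving (⇑T.symm) μ μ := by
  let e : α ≃ᵐ α := ⟨T, hT.m, hT.ms⟩
  have : MeasurePreserving (⇑e) μ μ := hT.mp
  exact this.symm e

lemma mp_zpow (hT : Sys μ T) (k : ℤ) : MeasurePreserving (⇑(T ^ k)) μ μ := by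
  induction k using Int.induction_on with
  | zero => simpa using! MeasurePreserving.id μ
  | succ n ih =>
    have : ⇑(T ^ ((n : ℤ) + 1)) = ⇑(T ^ (n : ℤ)) ∘ ⇑T := by
      rw [zpow_add_one]; rfl
    rw [this]
    exact ih.comp hT.mp
  | pred n ih =>
    have : ⇑(T ^ (-(n : ℤ) - 1)) = ⇑(T ^ (-(n : ℤ))) ∘ ⇑T.symm := by
      rw [zpow_sub_one]; rfl
    rw [this]
    exact ih.comp (symm_mp hT)

/-- Koopman operator -/
noncomputable def KU (hT : Sys μ T) : Lp ℝ 2 μ ≃ₗᵢ[ℝ] Lp ℝ 2 μ where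
  toLinearEquiv := LinearEquiv.ofLinearMap
    (Lp.compMeasurePreservingₗᵢ (p := 2) (E := ℝ) ℝ (⇑T) hT.mp).toLinearMap
    (Lp.compMeasurePreservingₗᵢ (p := 2) (E := ℝ) ℝ (⇑T.symm) (symm_mp hT)).toLinearMap
    (by
      ext1 f
      show Lp.compMeasurePreserving (⇑T) hT.mp
        (Lp.compMeasurePreserving (⇑T.symm) (symm_mp hT) f) = f
      have hf : f = (Lp.memLp f).toLp (⇑f) := (Lp.toLp_coeFn f (Lp.memLp f)).symm
      rw [hf, Lp.toLp_compMeasurePreserving, Lp.toLp_compMeasurePreserving]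
      congr 1
      funext x
      simp)
    (by
      ext1 f
      show Lp.compMeasurePreserving (⇑T.symm) (symm_mp hT)
        (Lp.compMeasurePreserving (⇑T) hT.mp f) = f
      have hf : f = (Lp.memLp f).toLp (⇑f) := (Lp.toLp_coeFn f (Lp.memLp f)).symm
      rw [hf, Lp.toLp_compMeasurePreserving, Lp.toLp_compMeasurePreserving]
      congr 1
      funext x
      simp)
  norm_map' f := Lp.norm_compMeasurePreserving f hT.mp

lemma KU_apply (hT : Sys μ T) {f : α → ℝ} (hf : MemLp f 2 μ) :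
    KU hT (hf.toLp f) = (hf.comp_measurePreserving hT.mp).toLp (f ∘ ⇑T) :=
  Lp.toLp_compMeasurePreserving hf hT.mp

lemma KU_symm_apply (hT : Sys μ T) {f : α → ℝ} (hf : MemLp f 2 μ) :
    (KU hT)⁻¹ (hf.toLp f) = (hf.comp_measurePreserving (symm_mp hT)).toLp (f ∘ ⇑T.symm) :=
  Lp.toLp_compMeasurePreserving hf (symm_mp hT)

lemma KU_zpow (hT : Sys μ T) (k : ℤ) : ∀ {f : α → ℝ} (hf : MemLp f 2 μ),
    (KU hT ^ k) (hf.toLp f) = (hf.comp_measurePreserving (mp_zpow hT k)).toLp (f ∘ ⇑(T ^ k)) := by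
  induction k using Int.induction_on with
  | zero =>
    intro f hf
    show hf.toLp f = _
    congr 1
  | succ n ih =>
    intro f hf
    have e : (KU hT ^ ((n : ℤ) + 1)) (hf.toLp f) = (KU hT ^ (n : ℤ)) (KU hT (hf.toLp f)) := by
      rw [zpow_add_one]; rfl
    rw [e, KU_apply, ih]
    congr 1
    funext x
    show f (T ((T ^ (n : ℤ)) x)) = f ((T ^ ((n : ℤ) + 1)) x)
    rw [add_comm, zpow_add, zpow_one]; rfl
  | pred n ih =>
    intro f hf
    have e : (KU hT ^ (-(n : ℤ) - 1)) (hf.toLp f) =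
        (KU hT ^ (-(n : ℤ))) ((KU hT)⁻¹ (hf.toLp f)) := by
      rw [zpow_sub_one]; rfl
    rw [e, KU_symm_apply, ih]
    congr 1
    funext x
    show f (T.symm ((T ^ (-(n : ℤ))) x)) = f ((T ^ (-(n : ℤ) - 1)) x)
    rw [sub_eq_add_neg, add_comm, zpow_add, zpow_neg_one]; rfl

lemma memL {h : α → ℝ} (hh : Measurable h) (hC : ∃ C : ℝ, ∀ x, |h x| ≤ C) : MemLp h 2 μ := by
  obtain ⟨C, hC⟩ := hC
  exact MemLp.of_bound hh.aestronglyMeasurable C (Eventually.of_forall hC)

/-- a function orthogonal to the invariant bounded functions is orthogonal to fixed vectors -/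
lemma fixed_orth (hT : Sys μ T) {h : α → ℝ} (hh : Measurable h) (hC : ∃ C : ℝ, ∀ x, |h x| ≤ C)
    (ho : Orth μ T h) (r : ℕ) (hr : 0 < r) (w : Lp ℝ 2 μ) (hw : (KU hT ^ r) w = w) :
    ∫ x, h x * w x ∂μ = 0 := by
  classical
  set w0 : α → ℝ := ⇑w with hw0
  have hw0m : Measurable w0 := (Lp.stronglyMeasurable w).measurable
  have hwL : (Lp.memLp w).toLp w0 = w := Lp.toLp_coeFn w (Lp.memLp w)
  have hwint : Integrable w0 μ := (Lp.memLp w).integrable (by norm_num)
  -- all powers fix `w`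
  have hz : ∀ n : ℤ, (KU hT ^ ((r : ℤ) * n)) w = w := by
    intro n
    rw [zpow_mul, zpow_natCast]
    induction n using Int.induction_on with
    | zero => rfl
    | succ n ih =>
      have e : ((KU hT ^ r) ^ ((n : ℤ) + 1)) w = ((KU hT ^ r) ^ (n : ℤ)) ((KU hT ^ r) w) := by
        rw [zpow_add_one]; rfl
      rw [e, hw]; exact ih
    | pred n ih =>
      have e : ((KU hT ^ r) ^ (-(n : ℤ) - 1)) w =
          ((KU hT ^ r) ^ (-(n : ℤ))) ((KU hT ^ r)⁻¹ w) := by
        rw [zpow_sub_one]; rfl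
      have e2 : (KU hT ^ r)⁻¹ w = w := by
        have : (KU hT ^ r)⁻¹ ((KU hT ^ r) w) = w := (KU hT ^ r).symm_apply_apply w
        rwa [hw] at this
      rw [e, e2]; exact ih
  have hae : ∀ n : ℤ, ∀ᵐ x ∂μ, w0 ((T ^ ((r : ℤ) * n)) x) = w0 x := by
    intro n
    have h1 := hz n
    rw [← hwL, KU_zpow] at h1
    have h2 := (MemLp.coeFn_toLp ((Lp.memLp w).comp_measurePreserving (mp_zpow hT ((r : ℤ) * n))))
    have h3 := MemLp.coeFn_toLp (Lp.memLp w)
    rw [h1] at h2
    filter_upwards [h2, h3] with x a b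
    have : (w0 ∘ ⇑(T ^ ((r : ℤ) * n))) x = w0 x := by rw [← a, b]
    exact this
  have haeall : ∀ᵐ x ∂μ, ∀ n : ℤ, w0 ((T ^ ((r : ℤ) * n)) x) = w0 x := ae_all_iff.2 hae
  set S : Set α := {x | ∀ n : ℤ, w0 ((T ^ ((r : ℤ) * n)) x) = w0 x} with hS
  have hSm : MeasurableSet S := by
    have : S = ⋂ n : ℤ, {x | w0 ((T ^ ((r : ℤ) * n)) x) = w0 x} := by
      ext x; simp [hS]
    rw [this]
    exact MeasurableSet.iInter (fun n =>
      measurableSet_eq_fun (hw0m.comp (mp_zpow hT _).measurable) hw0m)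
  have hT1 : ∀ (n : ℤ) (x : α), (T ^ ((r : ℤ) * n)) ((T ^ r) x) = (T ^ ((r : ℤ) * (n + 1))) x := by
    intro n x
    rw [mul_add, mul_one, zpow_add, zpow_natCast]; rfl
  have hSval : ∀ x, (T ^ r) x ∈ S → w0 ((T ^ r) x) = w0 x := by
    intro x hx
    have := hx (-1)
    rw [hT1] at this
    simpa using this.symm
  have hSinv : ∀ x, x ∈ S ↔ (T ^ r) x ∈ S := by
    intro x
    constructor
    · intro hx n
      have h1 := hx (n + 1)
      have h2 := hx 1
      rw [hT1, h1]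
      rw [mul_one, zpow_natCast] at h2
      exact h2.symm
    · intro hx n
      have h1 := hx (n - 1)
      rw [hT1, sub_add_cancel, hSval x hx] at h1
      exact h1
  have hSval' : ∀ x, x ∈ S → w0 ((T ^ r) x) = w0 x := fun x hx => hSval x ((hSinv x).1 hx)
  -- truncations
  set g : ℕ → α → ℝ := fun M x => if x ∈ S ∧ |w0 x| ≤ M then w0 x else 0 with hg
  have hgm : ∀ M, Measurable (g M) := by
    intro M
    apply Measurable.ite _ hw0m measurable_const
    exact hSm.inter (measurableSet_le hw0m.abs measurable_const)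
  have hgz : ∀ M, ∫ x, h x * g M x ∂μ = 0 := by
    intro M
    apply ho r hr (g M) (hgm M)
    · refine ⟨M, fun x => ?_⟩
      simp only [hg]
      split_ifs with hx
      · exact hx.2
      · simp
    · intro x
      simp only [hg]
      by_cases hx : x ∈ S
      · have h1 := (hSinv x).1 hx
        have e := hSval' x hx
        by_cases hM : |w0 x| ≤ M
        · rw [if_pos ⟨h1, by rw [e]; exact hM⟩, if_pos ⟨hx, hM⟩, e]
        · rw [if_neg (fun h => hM (by rw [← e]; exact h.2)), if_neg (fun h => hM h.2)]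
      · have h1 : ¬ (T ^ r) x ∈ S := fun h => hx ((hSinv x).2 h)
        simp [hx, h1]
  obtain ⟨C, hC⟩ := hC
  have hlim : Tendsto (fun M : ℕ => ∫ x, h x * g M x ∂μ) atTop (nhds (∫ x, h x * w0 x ∂μ)) := by
    apply tendsto_integral_of_dominated_convergence (fun x => C * |w0 x|)
    · intro M
      exact (hh.mul (hgm M)).aestronglyMeasurable
    · exact hwint.abs.const_mul C
    · intro M
      refine Eventually.of_forall (fun x => ?_)
      rw [Real.norm_eq_abs, abs_mul]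
      apply mul_le_mul (hC x) _ (abs_nonneg _) ((abs_nonneg _).trans (hC x))
      simp only [hg]
      split_ifs
      · exact le_rfl
      · simp
    · filter_upwards [haeall] with x hx
      apply tendsto_const_nhds.mul
      apply tendsto_const_nhds.congr'
      obtain ⟨M0, hM0⟩ := exists_nat_ge |w0 x|
      filter_upwards [eventually_ge_atTop M0] with M hM
      simp only [hg]
      rw [if_pos]
      exact ⟨hx, hM0.trans (by exact_mod_cast hM)⟩
  have h0 : Tendsto (fun M : ℕ => ∫ x, h x * g M x ∂μ) atTop (nhds 0) := by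
    simp only [hgz]; exact tendsto_const_nhds
  exact tendsto_nhds_unique hlim h0

/-- von Neumann -/
lemma vn (hT : Sys μ T) {h : α → ℝ} (hh : Measurable h) (hC : ∃ C : ℝ, ∀ x, |h x| ≤ C)
    (ho : Orth μ T h) (r : ℕ) (hr : 0 < r) :
    Tendsto (fun N : ℕ => (N : ℝ)⁻¹ • ∑ n ∈ range N, (KU hT ^ (r * n)) ((memL (μ := μ) hh hC).toLp h))
      atTop (nhds 0) := by
  set v : Lp ℝ 2 μ := (memL (μ := μ) hh hC).toLp h with hv
  set f : Lp ℝ 2 μ →L[ℝ] Lp ℝ 2 μ := (KU hT ^ r).toLinearIsometry.toContinuousLinearMap with hf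
  have hf1 : ‖f‖ ≤ 1 := LinearIsometry.norm_toContinuousLinearMap_le _
  have hfa : ∀ y, f y = (KU hT ^ r) y := fun y => rfl
  have hit : ∀ n : ℕ, (⇑f)^[n] v = (KU hT ^ (r * n)) v := by
    intro n
    induction n with
    | zero => rfl
    | succ n ih =>
      rw [Function.iterate_succ_apply', ih, hfa, Nat.mul_succ, add_comm, pow_add]
      rfl
  have h1 := ContinuousLinearMap.tendsto_birkhoffAverage_orthogonalProjection f hf1 v
  set w := (f.eqLocus (1 : Lp ℝ 2 μ →L[ℝ] Lp ℝ 2 μ)).orthogonalProjectionOnto v with hw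
  have hwfix : (KU hT ^ r) (w : Lp ℝ 2 μ) = w := by
    have := w.2
    rw [LinearMap.mem_eqLocus] at this
    exact this
  have h2 := fixed_orth hT hh hC ho r hr (w : Lp ℝ 2 μ) hwfix
  have h3 : ⟪v, (w : Lp ℝ 2 μ)⟫_ℝ = 0 := by
    rw [MeasureTheory.L2.inner_def, ← h2]
    apply integral_congr_ae
    filter_upwards [MemLp.coeFn_toLp (memL (μ := μ) hh hC)] with x hx
    rw [hx]
    simp [mul_comm]
  have h4 : ⟪(w : Lp ℝ 2 μ), (w : Lp ℝ 2 μ)⟫_ℝ = 0 := by
    have h5 := Submodule.inner_orthogonalProjectionOnto_eq_of_mem_left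
      (K := f.eqLocus (1 : Lp ℝ 2 μ →L[ℝ] Lp ℝ 2 μ)) (𝕜 := ℝ) w v
    rw [← hw] at h5
    rw [real_inner_comm] at h3
    rw [← h3, ← h5]
    rfl
  have h6 : (w : Lp ℝ 2 μ) = 0 := inner_self_eq_zero.1 h4
  rw [h6] at h1
  refine h1.congr (fun N => ?_)
  unfold birkhoffAverage birkhoffSum
  simp only [hit, _root_.id]

end MetAux

open MetAux in
/-- NC-MET -/
theorem tMET (hP : S_PME) : S_MET := by
  intro α _ μ _ T h hT hh hC ho Q hQ
  have h1 := hP (Lp ℝ 2 μ) (KU hT) ((memL (μ := μ) hh hC).toLp h) (fun r hr => vn hT hh hC ho r hr) Q hQ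
  -- the averages
  set F : ℕ → α → ℝ := fun N x => (N : ℝ)⁻¹ * ∑ n ∈ range N, h ((T ^ (Q.eval (n : ℤ))) x) with hF
  have hFL : ∀ N, MemLp (F N) 2 μ := by
    intro N
    have hs : MemLp (fun x => ∑ n ∈ range N, h ((T ^ (Q.eval (n : ℤ))) x)) 2 μ :=
      memLp_finset_sum _ (fun n _ =>
        (memL (μ := μ) hh hC).comp_measurePreserving (mp_zpow hT (Q.eval (n : ℤ))))
    exact hs.const_mul _
  have hEq : ∀ N : ℕ, (N : ℝ)⁻¹ • ∑ n ∈ range N, (KU hT ^ (Q.eval (n : ℤ)))
      ((memL (μ := μ) hh hC).toLp h) = (hFL N).toLp (F N) := by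
    intro N
    apply Lp.ext
    have e1 := Lp.coeFn_smul (N : ℝ)⁻¹ (∑ n ∈ range N, (KU hT ^ (Q.eval (n : ℤ)))
      ((memL (μ := μ) hh hC).toLp h))
    have e2 := MemLp.coeFn_toLp (hFL N)
    have e3 : ⇑(∑ n ∈ range N, (KU hT ^ (Q.eval (n : ℤ))) ((memL (μ := μ) hh hC).toLp h)) =ᵐ[μ]
        fun x => ∑ n ∈ range N, h ((T ^ (Q.eval (n : ℤ))) x) := by
      have e4 : ∀ s : Finset ℕ, ⇑(∑ n ∈ s, (KU hT ^ (Q.eval (n : ℤ)))
          ((memL (μ := μ) hh hC).toLp h)) =ᵐ[μ]
          fun x => ∑ n ∈ s, h ((T ^ (Q.eval (n : ℤ))) x) := by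
        classical
        intro s
        induction s using Finset.induction_on with
        | empty =>
          simp only [Finset.sum_empty]
          exact Lp.coeFn_zero ℝ 2 μ
        | insert a s ha ih =>
          rw [Finset.sum_insert ha]
          have e5 := Lp.coeFn_add ((KU hT ^ (Q.eval (a : ℤ))) ((memL (μ := μ) hh hC).toLp h))
            (∑ n ∈ s, (KU hT ^ (Q.eval (n : ℤ))) ((memL (μ := μ) hh hC).toLp h))
          have e6 := MemLp.coeFn_toLp ((memL (μ := μ) hh hC).comp_measurePreserving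
            (mp_zpow hT (Q.eval (a : ℤ))))
          rw [← KU_zpow hT (Q.eval (a : ℤ)) (memL (μ := μ) hh hC)] at e6
          filter_upwards [e5, e6, ih] with x a1 a2 a3
          rw [a1, Pi.add_apply, a2, a3, Finset.sum_insert ha]
          rfl
      exact e4 _
    filter_upwards [e1, e2, e3] with x a1 a2 a3
    rw [a1, a2, Pi.smul_apply, a3, smul_eq_mul]
  have h2 : Tendsto (fun N : ℕ => ‖(hFL N).toLp (F N)‖) atTop (nhds 0) := by
    have := h1.norm
    rw [norm_zero] at this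
    refine this.congr (fun N => ?_)
    rw [hEq N]
  refine squeeze_zero (fun N => integral_nonneg (fun x => abs_nonneg _)) (fun N => ?_) h2
  show ∫ x, |F N x| ∂μ ≤ ‖(hFL N).toLp (F N)‖
  rw [Lp.norm_toLp]
  have h3 : ∫ x, |F N x| ∂μ = (eLpNorm (F N) 1 μ).toReal := by
    rw [eLpNorm_one_eq_lintegral_enorm]
    have := integral_norm_eq_lintegral_enorm (hFL N).1
    simpa [Real.norm_eq_abs] using this
  rw [h3]
  apply ENNReal.toReal_mono (hFL N).2.ne
  exact eLpNorm_le_eLpNorm_of_exponent_le (by norm_num) (hFL N).1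

end Pool.Agent.R497.NC
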